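import Pool.Agent.Y562.PL.Far2

/-!
# The influence of far intervals: the statement
-/

set_option autoImplicit false

namespace Pool.Agent.Y562.PL

open MeasureTheory Set Filter Topology
open scoped FourierTransform ENNReal ContDiff
open Pool.Agent.Y290.PL

/-- a smooth function with support in the unit interval with small value and second derivative has
a small Fourier transform -/
theorem four_bound {e : ℝ → ℂ} (he : S01 e) (hI : Integrable (𝓕 e)) {A B : ℝ} (hA : ∀ x ∈ Icc (0 : ℝ) 1, ‖e x‖ ≤ A)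
    (hB : ∀ x ∈ Icc (0 : ℝ) 1, ‖deriv (deriv e) x‖ ≤ B) :
    NP e + NM e ≤ Real.pi * (A + B) := by
  have hs0 : ContDiff ℝ ∞ e := he.s
  have hs1 : ContDiff ℝ ∞ (deriv e) := (contDiff_infty_iff_deriv.1 hs0).2
  have hs2 : ContDiff ℝ ∞ (deriv (deriv e)) := (contDiff_infty_iff_deriv.1 hs1).2
  have hopen : IsOpen (Icc (0 : ℝ) 1)ᶜ := isClosed_Icc.isOpen_compl
  have hz1 : ∀ x, x ∉ Icc (0 : ℝ) 1 → deriv e x = 0 := by
    intro x hx
    have h1 : e =ᶠ[𝓝 x] fun _ => 0 := by
      filter_upwards [hopen.mem_nhds hx] with y hy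
      exact he.o y hy
    rw [h1.deriv_eq, deriv_const]
  have hz2 : ∀ x, x ∉ Icc (0 : ℝ) 1 → deriv (deriv e) x = 0 := by
    intro x hx
    have h1 : deriv e =ᶠ[𝓝 x] fun _ => 0 := by
      filter_upwards [hopen.mem_nhds hx] with y hy
      exact hz1 y hy
    rw [h1.deriv_eq, deriv_const]
  have hint : ∀ g : ℝ → ℂ, Continuous g → (∀ x, x ∉ Icc (0 : ℝ) 1 → g x = 0) → Integrable g := by
    intro g hg h0
    exact hg.integrable_of_hasCompactSupport
      (HasCompactSupport.intro isCompact_Icc h0)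
  have hbd : ∀ (g : ℝ → ℂ) (C : ℝ), Continuous g → (∀ x, x ∉ Icc (0 : ℝ) 1 → g x = 0) →
      (∀ x ∈ Icc (0 : ℝ) 1, ‖g x‖ ≤ C) → ∀ ξ, ‖𝓕 g ξ‖ ≤ C := by
    intro g C hg h0 hC ξ
    rw [Real.fourier_real_eq_integral_exp_smul]
    rw [← setIntegral_eq_integral_of_forall_compl_eq_zero (s := Icc (0 : ℝ) 1)]
    · have h1 := norm_setIntegral_le_of_norm_le_const (μ := volume) (s := Icc (0 : ℝ) 1)
        (f := fun y : ℝ => Complex.exp (((-2 * Real.pi * y * ξ : ℝ) : ℂ) * Complex.I) • g y)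
        (C := C) (by simp) ?_
      · simpa using h1
      · intro w hw
        rw [norm_smul, Complex.norm_exp_ofReal_mul_I, one_mul]
        exact hC w hw
    · intro y hy
      rw [h0 y hy, smul_zero]
  have hF2 : ∀ ξ : ℝ, 𝓕 (deriv (deriv e)) ξ =
      (2 * Real.pi * Complex.I * ξ) * ((2 * Real.pi * Complex.I * ξ) * 𝓕 e ξ) := by
    intro ξ
    have h1 := Real.fourier_deriv (hint _ hs1.continuous hz1)
      (hs1.differentiable (by simp)) (hint _ hs2.continuous hz2)
    have h2 := Real.fourier_deriv (hint _ hs0.continuous he.o)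
      (hs0.differentiable (by simp)) (hint _ hs1.continuous hz1)
    rw [h1]
    simp only [smul_eq_mul]
    rw [h2]
    simp only [smul_eq_mul]
  have hpt : ∀ ξ : ℝ, ‖𝓕 e ξ‖ ≤ (A + B) * (1 + ξ ^ 2)⁻¹ := by
    intro ξ
    have h1 := hbd e A hs0.continuous he.o hA ξ
    have h2 := hbd _ B hs2.continuous hz2 hB ξ
    have h3 : ‖(2 * (Real.pi : ℂ) * Complex.I * (ξ : ℂ))‖ = 2 * Real.pi * |ξ| := by
      rw [norm_mul, norm_mul, norm_mul, Complex.norm_I, Complex.norm_real, Complex.norm_real]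
      simp [abs_of_pos Real.pi_pos]
    rw [hF2, norm_mul (2 * (Real.pi : ℂ) * Complex.I * (ξ : ℂ)),
      norm_mul (2 * (Real.pi : ℂ) * Complex.I * (ξ : ℂ)), h3] at h2
    have h4 : ξ ^ 2 * ‖𝓕 e ξ‖ ≤ B := by
      refine le_trans ?_ h2
      have h5 : 2 * Real.pi * |ξ| * (2 * Real.pi * |ξ| * ‖𝓕 e ξ‖) =
          (2 * Real.pi) ^ 2 * (ξ ^ 2 * ‖𝓕 e ξ‖) := by
        rw [← sq_abs ξ]
        ring
      rw [h5]
      have h6 : (1 : ℝ) ≤ (2 * Real.pi) ^ 2 := by
        have := Real.pi_gt_three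
        nlinarith
      have h7 : 0 ≤ ξ ^ 2 * ‖𝓕 e ξ‖ := by positivity
      nlinarith
    rw [← div_eq_mul_inv, le_div_iff₀ (by positivity)]
    nlinarith
  have hIe : Integrable (fun ξ => ‖𝓕 e ξ‖) := hI.norm
  have hsum : NP e + NM e = ∫ ξ, ‖𝓕 e ξ‖ := by
    unfold NP NM
    have h1 := integral_add_compl (s := Ioi (0 : ℝ)) measurableSet_Ioi hIe
    rw [compl_Ioi] at h1
    exact h1
  rw [hsum]
  calc ∫ ξ, ‖𝓕 e ξ‖ ≤ ∫ ξ : ℝ, (A + B) * (1 + ξ ^ 2)⁻¹ :=
        integral_mono hIe (integrable_inv_one_add_sq.const_mul (A + B)) hpt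
    _ = Real.pi * (A + B) := by
        rw [integral_const_mul, integral_univ_inv_one_add_sq, mul_comm]

theorem dif_maps {h : ℝ → ℝ} (hh : Dif h) {x : ℝ} (hx : x ∈ Icc (0 : ℝ) 1) :
    h x ∈ Icc (0 : ℝ) 1 := by
  have hm : StrictMono h := strictMono_of_deriv_pos hh.d
  constructor
  · by_contra hc
    push Not at hc
    have h1 : h x / 2 < 0 := by linarith
    have h2 : h (h x / 2) = h x / 2 := hh.o _ (fun hm => by linarith [hm.1])
    have h3 : h (h x / 2) < h x := hm (by linarith [hx.1])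
    linarith
  · by_contra hc
    push Not at hc
    have h1 : 1 < (1 + h x) / 2 := by linarith
    have h2 : h ((1 + h x) / 2) = (1 + h x) / 2 := hh.o _ (fun hm => by linarith [hm.2])
    have h3 : h x < h ((1 + h x) / 2) := hm (by linarith [hx.2])
    linarith

theorem shift_far {s : ℝ} (hs : 2 ≤ |s|) {y : ℝ} (hy : y ∈ Icc (0 : ℝ) 1) :
    ∀ w ∈ Icc (0 : ℝ) 1, |s| / 2 ≤ |w - (y - s)| := by
  intro w hw
  have h1 : |s| ≤ |w - (y - s)| + |y - w| := by
    have : s = (w - (y - s)) + (y - w) := by ring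
    calc |s| = |(w - (y - s)) + (y - w)| := by rw [← this]
      _ ≤ _ := abs_add_le _ _
  have h2 : |y - w| ≤ 1 := by
    rw [abs_le]
    constructor <;> linarith [hy.1, hy.2, hw.1, hw.2]
  linarith

theorem t_FAR (hFB : S_FB) : S_FAR := by
  intro h hh
  obtain ⟨M1, hM1⟩ := isCompact_Icc.exists_bound_of_continuousOn (s := Icc (0 : ℝ) 1)
    (f := deriv h) ((contDiff_infty_iff_deriv.1 hh.s).2.continuous.continuousOn)
  obtain ⟨M2, hM2⟩ := isCompact_Icc.exists_bound_of_continuousOn (s := Icc (0 : ℝ) 1)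
    (f := deriv (deriv h))
    ((contDiff_infty_iff_deriv.1 (contDiff_infty_iff_deriv.1 hh.s).2).2.continuous.continuousOn)
  have hM10 : 0 ≤ M1 := (norm_nonneg _).trans (hM1 0 (by simp))
  have hM20 : 0 ≤ M2 := (norm_nonneg _).trans (hM2 0 (by simp))
  refine ⟨Real.pi * (4 + (4 * M2 + 8 * M1 ^ 2 + 8)), by positivity, ?_⟩
  intro F N s hF hN hs
  have hN0 : 0 ≤ N := (norm_nonneg _).trans (hN 0)
  obtain ⟨hI, -, -, -, hPs, -, -, -⟩ := hFB.1 F hF
  set p : ℝ → ℂ := Pp F with hp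
  have hP1 : ContDiff ℝ ∞ (deriv p) := (contDiff_infty_iff_deriv.1 hPs).2
  have hP2 : ContDiff ℝ ∞ (deriv (deriv p)) := (contDiff_infty_iff_deriv.1 hP1).2
  have hh1 : ContDiff ℝ ∞ (deriv h) := (contDiff_infty_iff_deriv.1 hh.s).2
  have he : S01 (fun x => p (h x - s) - p (x - s)) := by
    constructor
    · exact (hPs.comp (hh.s.sub contDiff_const)).sub (hPs.comp (contDiff_id.sub contDiff_const))
    · intro x hx
      simp only [hh.o x hx, sub_self]
  refine ⟨he, ?_⟩
  have hs0 : 0 < |s| := by linarith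
  have hD : 1 ≤ |s| / 2 := by linarith
  have hbd : ∀ y ∈ Icc (0 : ℝ) 1, ‖deriv p (y - s)‖ ≤ 4 * (N / s ^ 2) ∧
      ‖deriv (deriv p) (y - s)‖ ≤ 8 * (N / s ^ 2) := by
    intro y hy
    have h1 := Pp_bounds hF hI hN hD (shift_far hs hy)
    have h2 : N * ((|s| / 2)⁻¹) ^ 2 = 4 * (N / s ^ 2) := by
      rw [← sq_abs s]
      field_simp
      ring
    rw [h2] at h1
    exact ⟨h1.1, by linarith [h1.2]⟩
  have hA : ∀ x ∈ Icc (0 : ℝ) 1, ‖p (h x - s) - p (x - s)‖ ≤ 4 * (N / s ^ 2) := by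
    intro x hx
    have hdiff : ∀ y ∈ Icc (0 : ℝ) 1, HasDerivWithinAt (fun y => p (y - s)) (deriv p (y - s))
        (Icc (0 : ℝ) 1) y := by
      intro y _
      have h1 : HasDerivAt p (deriv p (y - s)) (y - s) :=
        ((hPs.differentiable (by simp)) (y - s)).hasDerivAt
      exact (h1.comp_sub_const y s).hasDerivWithinAt
    have h2 := (convex_Icc (0 : ℝ) 1).norm_image_sub_le_of_norm_hasDerivWithin_le hdiff
      (fun y hy => (hbd y hy).1) hx (dif_maps hh hx)
    refine h2.trans ?_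
    have h3 : ‖h x - x‖ ≤ 1 := by
      rw [Real.norm_eq_abs, abs_le]
      have h4 := dif_maps hh hx
      constructor <;> linarith [hx.1, hx.2, h4.1, h4.2]
    exact mul_le_of_le_one_right (by positivity) h3
  have hd1 : ∀ x, HasDerivAt (fun x => p (h x - s) - p (x - s))
      (((deriv h x : ℝ) : ℂ) * deriv p (h x - s) - deriv p (x - s)) x := by
    intro x
    have h1 : HasDerivAt p (deriv p (h x - s)) (h x - s) :=
      ((hPs.differentiable (by simp)) (h x - s)).hasDerivAt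
    have h2 : HasDerivAt p (deriv p (x - s)) (x - s) :=
      ((hPs.differentiable (by simp)) (x - s)).hasDerivAt
    have h3 : HasDerivAt (fun x => h x - s) (deriv h x) x :=
      (((hh.s.differentiable (by simp)) x).hasDerivAt).sub_const s
    have h4 := h1.scomp x h3
    have h5 := h2.comp_sub_const x s
    have h6 := h4.sub h5
    rw [Complex.real_smul] at h6
    exact h6
  have hde : deriv (fun x => p (h x - s) - p (x - s)) =
      fun x => ((deriv h x : ℝ) : ℂ) * deriv p (h x - s) - deriv p (x - s) := by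
    ext x
    exact (hd1 x).deriv
  have hd2 : ∀ x, HasDerivAt (deriv (fun x => p (h x - s) - p (x - s)))
      ((((deriv (deriv h) x : ℝ) : ℂ) * deriv p (h x - s) +
        ((deriv h x : ℝ) : ℂ) * (((deriv h x : ℝ) : ℂ) * deriv (deriv p) (h x - s))) -
        deriv (deriv p) (x - s)) x := by
    intro x
    rw [hde]
    have h1 : HasDerivAt (deriv p) (deriv (deriv p) (h x - s)) (h x - s) :=
      ((hP1.differentiable (by simp)) (h x - s)).hasDerivAt
    have h2 : HasDerivAt (deriv p) (deriv (deriv p) (x - s)) (x - s) :=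
      ((hP1.differentiable (by simp)) (x - s)).hasDerivAt
    have h3 : HasDerivAt (fun x => h x - s) (deriv h x) x :=
      (((hh.s.differentiable (by simp)) x).hasDerivAt).sub_const s
    have h4 := h1.scomp x h3
    have h5 := h2.comp_sub_const x s
    rw [Complex.real_smul] at h4
    have h6 : HasDerivAt (fun x => ((deriv h x : ℝ) : ℂ)) ((deriv (deriv h) x : ℝ) : ℂ) x :=
      (((hh1.differentiable (by simp)) x).hasDerivAt).ofReal_comp
    exact (h6.mul h4).sub h5
  have hB : ∀ x ∈ Icc (0 : ℝ) 1, ‖deriv (deriv (fun x => p (h x - s) - p (x - s))) x‖ ≤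
      (4 * M2 + 8 * M1 ^ 2 + 8) * (N / s ^ 2) := by
    intro x hx
    rw [(hd2 x).deriv]
    have hb1 := hbd (h x) (dif_maps hh hx)
    have hb2 := hbd x hx
    have hm1 : ‖((deriv h x : ℝ) : ℂ)‖ ≤ M1 := by
      rw [Complex.norm_real]
      exact hM1 x hx
    have hm2 : ‖((deriv (deriv h) x : ℝ) : ℂ)‖ ≤ M2 := by
      rw [Complex.norm_real]
      exact hM2 x hx
    have hR : 0 ≤ N / s ^ 2 := by positivity
    have e1 : ‖((deriv (deriv h) x : ℝ) : ℂ) * deriv p (h x - s)‖ ≤ M2 * (4 * (N / s ^ 2)) := by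
      rw [norm_mul]
      exact mul_le_mul hm2 hb1.1 (norm_nonneg _) hM20
    have e2 : ‖((deriv h x : ℝ) : ℂ) * (((deriv h x : ℝ) : ℂ) * deriv (deriv p) (h x - s))‖ ≤
        M1 * (M1 * (8 * (N / s ^ 2))) := by
      rw [norm_mul, norm_mul]
      exact mul_le_mul hm1 (mul_le_mul hm1 hb1.2 (norm_nonneg _) hM10)
        (mul_nonneg (norm_nonneg _) (norm_nonneg _)) hM10
    have e3 := norm_sub_le ((((deriv (deriv h) x : ℝ) : ℂ) * deriv p (h x - s) +
        ((deriv h x : ℝ) : ℂ) * (((deriv h x : ℝ) : ℂ) * deriv (deriv p) (h x - s))))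
        (deriv (deriv p) (x - s))
    have e4 := norm_add_le (((deriv (deriv h) x : ℝ) : ℂ) * deriv p (h x - s))
        (((deriv h x : ℝ) : ℂ) * (((deriv h x : ℝ) : ℂ) * deriv (deriv p) (h x - s)))
    have e5 := hb2.2
    nlinarith
  have hfin := four_bound he (hFB.1 _ he).1 hA hB
  refine hfin.trans (le_of_eq ?_)
  ring

end Pool.Agent.Y562.PL
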