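import Pool.Agent.Y290.PL.Stm

/-!
# The influence of far intervals
-/

set_option autoImplicit false

namespace Pool.Agent.Y562.PL

open MeasureTheory Set Filter Topology
open scoped FourierTransform ENNReal ContDiff
open Pool.Agent.Y290.PL

/-- the integral of `F y / (y - u) ^ k` over the unit interval -/
noncomputable def Q (F : ℝ → ℂ) (k : ℕ) (u : ℝ) : ℂ :=
  ∫ y in Icc (0 : ℝ) 1, F y * ((((y - u)⁻¹) ^ k : ℝ) : ℂ)

theorem mem_far {u D : ℝ} (h : ∀ w ∈ Icc (0 : ℝ) 1, D ≤ |w - u|) {v : ℝ} (hv : |v - u| ≤ D / 2) :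
    ∀ w ∈ Icc (0 : ℝ) 1, D / 2 ≤ |w - v| := by
  intro w hw
  have h1 := h w hw
  have h2 : |w - u| ≤ |w - v| + |v - u| := abs_sub_le w v u
  linarith

theorem ne_far {u D : ℝ} (hD : 0 < D) (h : ∀ w ∈ Icc (0 : ℝ) 1, D ≤ |w - u|) :
    ∀ w ∈ Icc (0 : ℝ) 1, w - u ≠ 0 := by
  intro w hw h0
  have := h w hw
  rw [h0, abs_zero] at this
  linarith

theorem inv_far {u D : ℝ} (hD : 0 < D) (h : ∀ w ∈ Icc (0 : ℝ) 1, D ≤ |w - u|) (k : ℕ) :
    ∀ w ∈ Icc (0 : ℝ) 1, ‖((((w - u)⁻¹) ^ k : ℝ) : ℂ)‖ ≤ (D⁻¹) ^ k := by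
  intro w hw
  rw [Complex.norm_real, Real.norm_eq_abs, abs_pow, abs_inv]
  have h1 := h w hw
  have h2 : |w - u|⁻¹ ≤ D⁻¹ := inv_anti₀ hD h1
  exact pow_le_pow_left₀ (inv_nonneg.2 (abs_nonneg _)) h2 k

theorem cont_far {F : ℝ → ℂ} (hF : Continuous F) {u D : ℝ} (hD : 0 < D)
    (h : ∀ w ∈ Icc (0 : ℝ) 1, D ≤ |w - u|) (k : ℕ) :
    ContinuousOn (fun y : ℝ => F y * ((((y - u)⁻¹) ^ k : ℝ) : ℂ)) (Icc (0 : ℝ) 1) := by
  apply ContinuousOn.mul hF.continuousOn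
  apply Complex.continuous_ofReal.comp_continuousOn
  apply ContinuousOn.pow
  apply ContinuousOn.inv₀ (by fun_prop)
  exact ne_far hD h

theorem Q_deriv {F : ℝ → ℂ} (hF : Continuous F) {u D : ℝ} (hD : 0 < D)
    (h : ∀ w ∈ Icc (0 : ℝ) 1, D ≤ |w - u|) (k : ℕ) :
    HasDerivAt (Q F (k + 1)) (((k + 1 : ℕ) : ℂ) * Q F (k + 2) u) u := by
  have hD2 : 0 < D / 2 := by linarith
  have key := (hasDerivAt_integral_of_dominated_loc_of_deriv_le
    (μ := volume.restrict (Icc (0 : ℝ) 1)) (𝕜 := ℝ)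
    (F := fun (v : ℝ) (y : ℝ) => F y * ((((y - v)⁻¹) ^ (k + 1) : ℝ) : ℂ))
    (F' := fun (v : ℝ) (y : ℝ) => F y * ((((k + 1 : ℕ) : ℝ) * ((y - v)⁻¹) ^ (k + 2) : ℝ) : ℂ))
    (x₀ := u) (s := Metric.ball u (D / 2))
    (bound := fun y => ‖F y‖ * (((k + 1 : ℕ) : ℝ) * ((D / 2)⁻¹) ^ (k + 2)))
    (Metric.ball_mem_nhds u hD2) ?_ ?_ ?_ ?_ ?_ ?_).2
  · have h2 : (((k + 1 : ℕ) : ℂ) * Q F (k + 2) u) =
        ∫ y in Icc (0 : ℝ) 1, F y * ((((k + 1 : ℕ) : ℝ) * ((y - u)⁻¹) ^ (k + 2) : ℝ) : ℂ) := by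
      rw [Q, ← integral_const_mul]
      apply integral_congr_ae
      filter_upwards with y
      push_cast
      ring
    rw [h2]
    exact key
  · filter_upwards [Metric.ball_mem_nhds u hD2] with v hv
    have hv' : |v - u| ≤ D / 2 := le_of_lt (by simpa [Real.dist_eq] using hv)
    exact (cont_far hF hD2 (mem_far h hv') (k + 1)).aestronglyMeasurable measurableSet_Icc
  · exact (cont_far hF hD h (k + 1)).integrableOn_compact isCompact_Icc
  · have h3 : ContinuousOn (fun y : ℝ => F y * ((((k + 1 : ℕ) : ℝ) * ((y - u)⁻¹) ^ (k + 2) : ℝ) : ℂ))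
        (Icc (0 : ℝ) 1) := by
      apply ContinuousOn.mul hF.continuousOn
      apply Complex.continuous_ofReal.comp_continuousOn
      apply ContinuousOn.mul continuousOn_const
      apply ContinuousOn.pow
      apply ContinuousOn.inv₀ (by fun_prop)
      exact ne_far hD h
    exact h3.aestronglyMeasurable measurableSet_Icc
  · refine ae_restrict_of_forall_mem measurableSet_Icc ?_
    intro y hy v hv
    have hv' : |v - u| ≤ D / 2 := le_of_lt (by simpa [Real.dist_eq] using hv)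
    have h4 := inv_far hD2 (mem_far h hv') (k + 2) y hy
    rw [norm_mul]
    apply mul_le_mul_of_nonneg_left _ (norm_nonneg _)
    rw [Complex.ofReal_mul, norm_mul]
    have h5 : ‖((((k + 1 : ℕ) : ℝ) : ℝ) : ℂ)‖ = ((k + 1 : ℕ) : ℝ) := by
      rw [Complex.norm_real, Real.norm_eq_abs, abs_of_nonneg (by positivity)]
    rw [h5]
    exact mul_le_mul_of_nonneg_left h4 (by positivity)
  · have h6 : ContinuousOn (fun y : ℝ => ‖F y‖ * (((k + 1 : ℕ) : ℝ) * ((D / 2)⁻¹) ^ (k + 2)))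
        (Icc (0 : ℝ) 1) := (hF.norm.mul continuous_const).continuousOn
    exact h6.integrableOn_compact isCompact_Icc
  · refine ae_restrict_of_forall_mem measurableSet_Icc ?_
    intro y hy v hv
    have hv' : |v - u| ≤ D / 2 := le_of_lt (by simpa [Real.dist_eq] using hv)
    have hne := ne_far hD2 (mem_far h hv') y hy
    have h7 : HasDerivAt (fun v : ℝ => y - v) (-1) v := by
      simpa using (hasDerivAt_id v).const_sub y
    have h8 := (h7.inv hne).pow (k + 1)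
    have h9 : HasDerivAt (fun v : ℝ => ((y - v)⁻¹) ^ (k + 1))
        (((k + 1 : ℕ) : ℝ) * ((y - v)⁻¹) ^ (k + 2)) v := by
      have h10 : (((k + 1 : ℕ) : ℝ) * ((y - v)⁻¹) ^ (k + 2)) =
          ((k + 1 : ℕ) : ℝ) * ((y - v)⁻¹) ^ (k + 1 - 1) * (- -1 / (y - v) ^ 2) := by
        rw [Nat.add_sub_cancel, neg_neg, one_div, pow_add _ k 2, inv_pow (y - v) 2]
        ring
      rw [h10]
      exact h8
    exact (h9.ofReal_comp).const_mul (F y)

theorem Q_bound {F : ℝ → ℂ} {N : ℝ} (hN : ∀ x, ‖F x‖ ≤ N) {u D : ℝ} (hD : 0 < D)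
    (h : ∀ w ∈ Icc (0 : ℝ) 1, D ≤ |w - u|) (k : ℕ) : ‖Q F k u‖ ≤ N * (D⁻¹) ^ k := by
  have h1 := norm_setIntegral_le_of_norm_le_const (μ := volume) (s := Icc (0 : ℝ) 1)
    (f := fun y : ℝ => F y * ((((y - u)⁻¹) ^ k : ℝ) : ℂ)) (C := N * (D⁻¹) ^ k)
    (by simp) ?_
  · simpa [Q] using h1
  · intro w hw
    rw [norm_mul]
    exact mul_le_mul (hN w) (inv_far hD h k w hw) (norm_nonneg _)
      ((norm_nonneg _).trans (hN w))

end Pool.Agent.Y562.PL
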