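import Pool.Agent.Y562.PL.Far

/-!
# The analytic part off the support
-/

set_option autoImplicit false

namespace Pool.Agent.Y562.PL

open MeasureTheory Set Filter Topology
open scoped FourierTransform ENNReal ContDiff
open Pool.Agent.Y290.PL

/-- the exponent -/
noncomputable def ea (u y t : ℝ) : ℂ := ((2 * Real.pi * (u - y) : ℝ) : ℂ) * Complex.I - (t : ℂ)

theorem ea_re (u y t : ℝ) : (ea u y t).re = -t := by
  simp [ea]

theorem ea_im (u y t : ℝ) : (ea u y t).im = 2 * Real.pi * (u - y) := by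
  simp [ea]

theorem fou {F : ℝ → ℂ} (hF : S01 F) (ξ : ℝ) :
    𝓕 F ξ = ∫ y in Icc (0 : ℝ) 1, F y *
      Complex.exp (((-2 * Real.pi * y * ξ : ℝ) : ℂ) * Complex.I) := by
  rw [Real.fourier_real_eq_integral_exp_smul, setIntegral_eq_integral_of_forall_compl_eq_zero]
  · apply integral_congr_ae
    filter_upwards with y
    rw [smul_eq_mul, mul_comm]
  · intro y hy
    rw [hF.o y hy, zero_mul]

theorem damp {F : ℝ → ℂ} (hF : S01 F) (u t : ℝ) (ht : 0 < t) :
    ∫ ξ in Ioi (0 : ℝ), 𝓕 F ξ * ex u ξ * ((Real.exp (-t * ξ) : ℝ) : ℂ) =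
      ∫ y in Icc (0 : ℝ) 1, F y * (-(ea u y t)⁻¹) := by
  have hc : Continuous F := hF.s.continuous
  have h1 : ∀ ξ : ℝ, 𝓕 F ξ * ex u ξ * ((Real.exp (-t * ξ) : ℝ) : ℂ) =
      ∫ y in Icc (0 : ℝ) 1, F y * Complex.exp (ea u y t * ξ) := by
    intro ξ
    rw [fou hF, mul_assoc, ← integral_mul_const]
    apply integral_congr_ae
    filter_upwards with y
    rw [ex, Complex.ofReal_exp, mul_assoc, ← Complex.exp_add, ← Complex.exp_add]
    congr 2
    rw [ea]
    push_cast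
    ring
  simp_rw [h1]
  rw [integral_integral_swap]
  · apply integral_congr_ae
    filter_upwards with y
    rw [integral_const_mul, integral_exp_mul_complex_Ioi (by rw [ea_re]; linarith)]
    simp [neg_div]
  · have hb : Integrable (fun z : ℝ × ℝ => Real.exp (-t * z.1) * ‖F z.2‖)
        ((volume.restrict (Ioi (0 : ℝ))).prod (volume.restrict (Icc (0 : ℝ) 1))) := by
      apply Integrable.mul_prod (f := fun x : ℝ => Real.exp (-t * x)) (g := fun y => ‖F y‖)
      · exact integrableOn_exp_mul_Ioi (by linarith) 0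
      · exact hc.norm.continuousOn.integrableOn_compact isCompact_Icc
    refine Integrable.mono' hb ?_ ?_
    · apply Continuous.aestronglyMeasurable
      unfold Function.uncurry ea
      fun_prop
    · filter_upwards with z
      simp only [Function.uncurry]
      rw [norm_mul, Complex.norm_exp, mul_comm]
      have h2 : (ea u z.2 t * (z.1 : ℂ)).re = -t * z.1 := by
        rw [Complex.mul_re, ea_re, Complex.ofReal_re, Complex.ofReal_im, mul_zero, sub_zero]
      rw [h2]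

theorem lim1 {F : ℝ → ℂ} (hI : Integrable (𝓕 F)) (u : ℝ) :
    Tendsto (fun t : ℝ => ∫ ξ in Ioi (0 : ℝ), 𝓕 F ξ * ex u ξ * ((Real.exp (-t * ξ) : ℝ) : ℂ))
      (𝓝[>] 0) (𝓝 (Pp F u)) := by
  unfold Pp
  have hex : ∀ x ξ : ℝ, ‖ex x ξ‖ = 1 := by
    intro x ξ
    rw [ex, Complex.norm_exp_ofReal_mul_I]
  have hexc : Continuous (ex u) := by
    unfold ex
    fun_prop
  refine tendsto_integral_filter_of_dominated_convergence (fun ξ => ‖𝓕 F ξ‖) ?_ ?_ ?_ ?_
  · filter_upwards with t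
    refine AEStronglyMeasurable.mul (AEStronglyMeasurable.mul ?_ ?_) ?_
    · exact hI.aestronglyMeasurable.restrict
    · exact hexc.aestronglyMeasurable
    · apply Continuous.aestronglyMeasurable
      fun_prop
  · filter_upwards [self_mem_nhdsWithin] with t ht
    refine ae_restrict_of_forall_mem measurableSet_Ioi ?_
    intro ξ hξ
    rw [norm_mul, norm_mul, hex, mul_one, Complex.norm_real, Real.norm_eq_abs,
      abs_of_pos (Real.exp_pos _)]
    have h1 : Real.exp (-t * ξ) ≤ 1 := by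
      rw [Real.exp_le_one_iff]
      have : 0 < t * ξ := mul_pos ht hξ
      linarith
    exact mul_le_of_le_one_right (norm_nonneg _) h1
  · exact hI.norm.restrict
  · filter_upwards with ξ
    have h2 : Tendsto (fun t : ℝ => ((Real.exp (-t * ξ) : ℝ) : ℂ)) (𝓝[>] 0) (𝓝 1) := by
      have h3 : Continuous (fun t : ℝ => ((Real.exp (-t * ξ) : ℝ) : ℂ)) := by fun_prop
      have h4 := h3.tendsto 0
      simp only [neg_zero, zero_mul, Real.exp_zero, Complex.ofReal_one] at h4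
      exact h4.mono_left nhdsWithin_le_nhds
    have h5 := h2.const_mul (𝓕 F ξ * ex u ξ)
    rwa [mul_one] at h5

theorem ea_ne {u D : ℝ} (_hD : 0 < D) (h : ∀ w ∈ Icc (0 : ℝ) 1, D ≤ |w - u|) (t : ℝ) :
    ∀ w ∈ Icc (0 : ℝ) 1, D ≤ ‖ea u w t‖ := by
  intro w hw
  have h1 := Complex.abs_im_le_norm (ea u w t)
  rw [ea_im, abs_mul, abs_sub_comm, abs_of_pos (by positivity : 0 < 2 * Real.pi)] at h1
  have h2 := h w hw
  have h3 : (1 : ℝ) ≤ 2 * Real.pi := by
    have := Real.pi_gt_three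
    linarith
  have h4 : 1 * |w - u| ≤ 2 * Real.pi * |w - u| :=
    mul_le_mul_of_nonneg_right h3 (abs_nonneg _)
  linarith

theorem lim2 {F : ℝ → ℂ} (hF : Continuous F) {u D : ℝ} (hD : 0 < D)
    (h : ∀ w ∈ Icc (0 : ℝ) 1, D ≤ |w - u|) :
    Tendsto (fun t : ℝ => ∫ y in Icc (0 : ℝ) 1, F y * (-(ea u y t)⁻¹))
      (𝓝[>] 0) (𝓝 (∫ y in Icc (0 : ℝ) 1, F y * (-(ea u y 0)⁻¹))) := by
  refine tendsto_integral_filter_of_dominated_convergence (fun y => ‖F y‖ * D⁻¹) ?_ ?_ ?_ ?_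
  · filter_upwards with t
    have h1 : ContinuousOn (fun y => F y * (-(ea u y t)⁻¹)) (Icc (0 : ℝ) 1) := by
      apply ContinuousOn.mul hF.continuousOn
      apply ContinuousOn.neg
      apply ContinuousOn.inv₀
      · unfold ea
        fun_prop
      · intro w hw h0
        have := ea_ne hD h t w hw
        rw [h0, norm_zero] at this
        linarith
    exact h1.aestronglyMeasurable measurableSet_Icc
  · filter_upwards with t
    refine ae_restrict_of_forall_mem measurableSet_Icc ?_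
    intro y hy
    rw [norm_mul, norm_neg, norm_inv]
    apply mul_le_mul_of_nonneg_left _ (norm_nonneg _)
    exact inv_anti₀ hD (ea_ne hD h t y hy)
  · have h6 : ContinuousOn (fun y : ℝ => ‖F y‖ * D⁻¹)
        (Icc (0 : ℝ) 1) := (hF.norm.mul continuous_const).continuousOn
    exact h6.integrableOn_compact isCompact_Icc
  · refine ae_restrict_of_forall_mem measurableSet_Icc ?_
    intro y hy
    have h1 : ea u y 0 ≠ 0 := by
      intro h0
      have := ea_ne hD h 0 y hy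
      rw [h0, norm_zero] at this
      linarith
    have h2 : Continuous (fun t : ℝ => ea u y t) := by
      unfold ea
      fun_prop
    have h3 : Tendsto (fun t : ℝ => ea u y t) (𝓝[>] 0) (𝓝 (ea u y 0)) :=
      (h2.tendsto 0).mono_left nhdsWithin_le_nhds
    exact ((h3.inv₀ h1).neg).const_mul (F y)

/-- the constant -/
noncomputable def cc : ℂ := (((2 * Real.pi : ℝ) : ℂ) * Complex.I)⁻¹

theorem cc_norm : ‖cc‖ ≤ 1 := by
  rw [cc, norm_inv, norm_mul, Complex.norm_I, mul_one, Complex.norm_real, Real.norm_eq_abs,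
    abs_of_pos (by positivity)]
  apply inv_le_one_of_one_le₀
  have := Real.pi_gt_three
  linarith

theorem Pp_far {F : ℝ → ℂ} (hF : S01 F) (hI : Integrable (𝓕 F)) {u D : ℝ} (hD : 0 < D)
    (h : ∀ w ∈ Icc (0 : ℝ) 1, D ≤ |w - u|) : Pp F u = cc * Q F 1 u := by
  have h1 : Tendsto (fun t : ℝ => ∫ ξ in Ioi (0 : ℝ),
      𝓕 F ξ * ex u ξ * ((Real.exp (-t * ξ) : ℝ) : ℂ))
      (𝓝[>] 0) (𝓝 (∫ y in Icc (0 : ℝ) 1, F y * (-(ea u y 0)⁻¹))) := by
    refine (lim2 hF.s.continuous hD h).congr' ?_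
    filter_upwards [self_mem_nhdsWithin] with t ht
    exact (damp hF u t ht).symm
  rw [tendsto_nhds_unique (lim1 hI u) h1, Q, ← integral_const_mul]
  refine setIntegral_congr_fun measurableSet_Icc ?_
  intro y hy
  have hne := ne_far hD h y hy
  have hne' : (((y - u : ℝ)) : ℂ) ≠ 0 := by exact_mod_cast hne
  simp only [ea, cc, pow_one, Complex.ofReal_zero, sub_zero]
  rw [show ((2 * Real.pi * (u - y) : ℝ) : ℂ) * Complex.I =
    -((((2 * Real.pi : ℝ) : ℂ) * Complex.I) * ((y - u : ℝ) : ℂ)) by push_cast; ring, inv_neg,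
    neg_neg, mul_inv, Complex.ofReal_inv]
  ring

/-- far points -/
def Far (u : ℝ) : Prop := u < 0 ∨ 1 < u

theorem far_open : IsOpen {u : ℝ | Far u} := by
  have : {u : ℝ | Far u} = Iio 0 ∪ Ioi 1 := by
    ext u
    simp [Far]
  rw [this]
  exact isOpen_Iio.union isOpen_Ioi

theorem far_D {u : ℝ} (h : Far u) : ∃ D : ℝ, 0 < D ∧ ∀ w ∈ Icc (0 : ℝ) 1, D ≤ |w - u| := by
  rcases h with h | h
  · refine ⟨-u, by linarith, fun w hw => ?_⟩
    rw [abs_of_nonneg (by linarith [hw.1])]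
    linarith [hw.1]
  · refine ⟨u - 1, by linarith, fun w hw => ?_⟩
    rw [abs_of_nonpos (by linarith [hw.2])]
    linarith [hw.2]

theorem Pp_deriv1 {F : ℝ → ℂ} (hF : S01 F) (hI : Integrable (𝓕 F)) {u : ℝ} (hu : Far u) :
    HasDerivAt (Pp F) (cc * Q F 2 u) u := by
  obtain ⟨D, hD, h⟩ := far_D hu
  have h1 := (Q_deriv hF.s.continuous hD h 0).const_mul cc
  simp only [zero_add, Nat.cast_one, one_mul] at h1
  refine h1.congr_of_eventuallyEq ?_
  filter_upwards [far_open.mem_nhds hu] with v hv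
  obtain ⟨D', hD', h'⟩ := far_D hv
  exact Pp_far hF hI hD' h'

theorem Pp_deriv2 {F : ℝ → ℂ} (hF : S01 F) (hI : Integrable (𝓕 F)) {u : ℝ} (hu : Far u) :
    HasDerivAt (deriv (Pp F)) (cc * (2 * Q F 3 u)) u := by
  obtain ⟨D, hD, h⟩ := far_D hu
  have h1 := (Q_deriv hF.s.continuous hD h 1).const_mul cc
  have h2 : ((1 + 1 : ℕ) : ℂ) = 2 := by norm_num
  rw [h2] at h1
  refine h1.congr_of_eventuallyEq ?_
  filter_upwards [far_open.mem_nhds hu] with v hv
  exact (Pp_deriv1 hF hI hv).deriv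

/-- bounds -/
theorem Pp_bounds {F : ℝ → ℂ} {N : ℝ} (hF : S01 F) (hI : Integrable (𝓕 F))
    (hN : ∀ x, ‖F x‖ ≤ N) {u D : ℝ} (hD : 1 ≤ D) (h : ∀ w ∈ Icc (0 : ℝ) 1, D ≤ |w - u|) :
    ‖deriv (Pp F) u‖ ≤ N * (D⁻¹) ^ 2 ∧ ‖deriv (deriv (Pp F)) u‖ ≤ 2 * (N * (D⁻¹) ^ 2) := by
  have hD0 : 0 < D := by linarith
  have hN0 : 0 ≤ N := (norm_nonneg _).trans (hN 0)
  have hu : Far u := by
    by_contra hc
    unfold Far at hc
    push Not at hc
    have h1 := h u ⟨hc.1, hc.2⟩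
    rw [sub_self, abs_zero] at h1
    linarith
  rw [(Pp_deriv1 hF hI hu).deriv, (Pp_deriv2 hF hI hu).deriv]
  constructor
  · rw [norm_mul]
    calc ‖cc‖ * ‖Q F 2 u‖ ≤ 1 * (N * (D⁻¹) ^ 2) :=
          mul_le_mul cc_norm (Q_bound hN hD0 h 2) (norm_nonneg _) (by norm_num)
      _ = N * (D⁻¹) ^ 2 := one_mul _
  · rw [norm_mul, norm_mul]
    have h1 : ‖(2 : ℂ)‖ = 2 := by norm_num
    rw [h1]
    have h2 : ‖Q F 3 u‖ ≤ N * (D⁻¹) ^ 2 := by
      refine (Q_bound hN hD0 h 3).trans ?_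
      apply mul_le_mul_of_nonneg_left _ hN0
      exact pow_le_pow_of_le_one (inv_nonneg.2 hD0.le) (inv_le_one_of_one_le₀ hD) (by norm_num)
    calc ‖cc‖ * (2 * ‖Q F 3 u‖) ≤ 1 * (2 * (N * (D⁻¹) ^ 2)) :=
          mul_le_mul cc_norm (by linarith) (by positivity) (by norm_num)
      _ = 2 * (N * (D⁻¹) ^ 2) := one_mul _

end Pool.Agent.Y562.PL
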